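import Mathlib

open Finset Filter Topology

namespace Pool.Agent.H.MP_f59edb_pr

section gen
variable {E V : Type} [DecidableEq E] [Fintype V] [DecidableEq V]

noncomputable def val (R : Finset E → Finset E) (φ : Finset E → ℝ) : ℕ → Finset E → ℝ
  | 0, G => φ G
  | k + 1, G => if R G = ∅ then φ G else (∑ e ∈ R G, val R φ k (G.erase e)) / #(R G)

lemma val_le (R : Finset E → Finset E) (φ ψ χ : Finset E → ℝ) (c : ℝ) (h : ∀ G, φ G ≤ c + ψ G + χ G) (k : ℕ) :
    ∀ G, val R φ k G ≤ c + val R ψ k G + val R χ k G := by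
  induction k with
  | zero => exact h
  | succ k ih =>
    intro G
    simp only [val]
    split_ifs with hR
    · exact h G
    · have hp : (0 : ℝ) < #(R G) := by exact_mod_cast card_pos.2 (nonempty_iff_ne_empty.2 hR)
      have := sum_le_sum fun e (_ : e ∈ R G) => ih (G.erase e)
      rw [sum_add_distrib, sum_add_distrib, sum_const, nsmul_eq_mul] at this
      rw [div_le_iff₀ hp, add_mul, add_mul, div_mul_cancel₀ _ hp.ne', div_mul_cancel₀ _ hp.ne']
      linarith

lemma val_neg (R : Finset E → Finset E) (φ : Finset E → ℝ) (k : ℕ) :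
    ∀ G, val R (fun G => - φ G) k G = - val R φ k G := by
  induction k with
  | zero => intro G; rfl
  | succ k ih =>
    intro G
    simp only [val, ih, sum_neg_distrib]
    split_ifs <;> ring

lemma val_zero (R : Finset E → Finset E) (k : ℕ) : ∀ G, val R (fun _ => 0) k G = 0 := by
  induction k with
  | zero => intro G; rfl
  | succ k ih => intro G; simp [val, ih]

def cnt (f : E → V) (G : Finset E) : ℕ := #{v : V | ∀ e ∈ G, f e ≠ v}

lemma cnt_mono (f : E → V) (G : Finset E) (e : E) : cnt f G ≤ cnt f (G.erase e) :=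
  card_le_card fun v hv => by
    simp only [mem_filter, mem_univ, true_and] at hv ⊢
    exact fun e' he' => hv e' (mem_of_mem_erase he')

lemma cnt_le (f : E → V) (G : Finset E) (e : E) : cnt f (G.erase e) ≤ cnt f G + 1 := by
  refine (card_le_card (t := insert (f e) (univ.filter fun v : V => ∀ e ∈ G, f e ≠ v)) fun v hv => ?_).trans (card_insert_le _ _)
  simp only [mem_filter, mem_univ, true_and, mem_insert] at hv ⊢
  by_cases h : v = f e
  · exact Or.inl h
  · refine Or.inr fun e' he' => ?_
    by_cases h2 : e' = e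
    · subst h2; exact fun h3 => h h3.symm
    · exact hv e' (mem_erase.2 ⟨h2, he'⟩)

def deg (g : E → V) (G : Finset E) (v : V) : ℕ := #{e ∈ G | g e = v}

omit [Fintype V] in
lemma deg_erase (g : E → V) (G : Finset E) (e : E) (he : e ∈ G) (v : V) :
    deg g (G.erase e) v = if g e = v then deg g G v - 1 else deg g G v := by
  unfold deg
  rw [filter_erase]
  split_ifs with h
  · exact card_erase_of_mem (mem_filter.2 ⟨he, h⟩)
  · exact congrArg card (erase_eq_of_notMem fun h2 => h (mem_filter.1 h2).2)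

lemma cnt_eq (g : E → V) (G : Finset E) (e : E) (h : 2 ≤ deg g G (g e)) : cnt g (G.erase e) ≤ cnt g G :=
  card_le_card fun v hv => by
    simp only [mem_filter, mem_univ, true_and] at hv ⊢
    intro e' he' h2
    by_cases h3 : e' = e
    · subst h3
      obtain ⟨e'', h4, h5⟩ := exists_mem_ne (s := {e ∈ G | g e = g e'}) h e'
      rw [mem_filter] at h4
      exact hv e'' (mem_erase.2 ⟨h5, h4.1⟩) (h4.2.trans h2)
    · exact hv e' (mem_erase.2 ⟨h3, he'⟩) h2

noncomputable def pot (f g : E → V) (S : Finset V) (G : Finset E) : ℝ :=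
  ∑ e ∈ G with f e ∈ S, 1 / (deg g G (g e) : ℝ)

lemma key (f g : E → V) (x y : ℕ) (R : Finset E → Finset E)
    (hR : ∀ G e, e ∈ R G ↔ e ∈ G ∧ cnt f (G.erase e) ≤ y ∧ cnt g (G.erase e) ≤ x)
    (S : Finset V) (hS : y ≤ #S) (k : ℕ) : ∀ G, #G ≤ k → cnt f G ≤ y → cnt g G ≤ x →
      val R (fun G => if cnt f G = y then 0 else 1) k G ≤ if cnt f G = y then 0 else pot f g S G := by
  have hpot : ∀ G, 0 ≤ pot f g S G := fun G => sum_nonneg fun _ _ => by positivity
  have hex : ∀ G, cnt f G < y → ∃ e ∈ G, f e ∈ S := by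
    intro G hG
    by_contra hc
    push Not at hc
    have : #S ≤ cnt f G := card_le_card fun v hv => by
      simp only [mem_filter, mem_univ, true_and]
      intro e he h
      exact hc e he (h ▸ hv)
    omega
  induction k with
  | zero =>
    intro G hG h1 h2
    have : G = ∅ := card_eq_zero.1 (by omega)
    by_cases h : cnt f G = y
    · simp [val, h]
    · obtain ⟨e, he, -⟩ := hex G (lt_of_le_of_ne h1 h)
      simp [this] at he
  | succ k ih =>
    intro G hG h1 h2
    have ih' : ∀ e ∈ R G, val R (fun G => if cnt f G = y then 0 else 1) k (G.erase e) ≤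
        if cnt f (G.erase e) = y then 0 else pot f g S (G.erase e) := by
      intro e he
      obtain ⟨h3, h4, h5⟩ := (hR G e).1 he
      exact ih _ (by rw [card_erase_of_mem h3]; omega) h4 h5
    by_cases h : cnt f G = y
    · simp only [val, h, if_true]
      split_ifs with hR0
      · exact le_rfl
      · refine div_nonpos_of_nonpos_of_nonneg (sum_nonpos fun e he => ?_) (by positivity)
        have h4 := ((hR G e).1 he).2.1
        have h5 := cnt_mono f G e
        have := ih' e he
        rwa [if_pos (by omega)] at this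
    rw [if_neg h]
    by_cases hd : ∃ e ∈ G, f e ∈ S ∧ deg g G (g e) ≤ 1
    · obtain ⟨e, he, h3, h4⟩ := hd
      have h5 : 0 < deg g G (g e) := card_pos.2 ⟨e, mem_filter.2 ⟨he, rfl⟩⟩
      have h6 : deg g G (g e) = 1 := by omega
      have h7 : 1 / (deg g G (g e) : ℝ) ≤ pot f g S G :=
        single_le_sum (f := fun e => 1 / (deg g G (g e) : ℝ)) (fun _ _ => by positivity) (mem_filter.2 ⟨he, h3⟩)
      have h8 := val_le R (fun G => if cnt f G = y then 0 else 1) (fun _ => 0) (fun _ => 0) 1
        (fun G => by split_ifs <;> norm_num) (k + 1) G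
      rw [val_zero] at h8
      rw [h6] at h7
      norm_num at h7 h8
      linarith
    push Not at hd
    have hrem : ∀ e ∈ G, f e ∈ S → ∀ e' ∈ G, g e' = g e → e' ∈ R G := by
      intro e he h3 e' he' h4
      refine (hR G e').2 ⟨he', ?_, ?_⟩
      · have := cnt_le f G e'
        omega
      · exact (cnt_eq g G e' (by rw [h4]; exact hd e he h3)).trans h2
    obtain ⟨e0, he0, he1⟩ := hex G (lt_of_le_of_ne h1 h)
    have hne : (R G).Nonempty := ⟨e0, hrem e0 he0 he1 e0 he0 rfl⟩
    have hp : (0 : ℝ) < #(R G) := by exact_mod_cast card_pos.2 hne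
    simp only [val, hne.ne_empty, if_false]
    rw [div_le_iff₀ hp]
    have h3 : ∀ e' ∈ R G, val R (fun G => if cnt f G = y then 0 else 1) k (G.erase e') ≤
        ∑ e ∈ G with f e ∈ S, (if g e' = g e then (if e = e' then 0 else 1 / (deg g G (g e) - 1 : ℝ))
          else 1 / (deg g G (g e) : ℝ)) := by
      intro e' he'
      have hG' := ((hR G e').1 he').1
      refine (ih' e' he').trans (le_trans (b := pot f g S (G.erase e')) (by split_ifs; exacts [hpot _, le_rfl]) ?_)
      unfold pot
      rw [filter_erase, ← sum_erase (a := e') (s := {e ∈ G | f e ∈ S}) (by simp)]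
      refine sum_le_sum fun e he => ?_
      rw [mem_erase, mem_filter] at he
      rw [deg_erase g G e' hG', if_neg he.1]
      split_ifs with h4
      · rw [Nat.cast_sub (hd e he.2.1 he.2.2).le]; simp
      · exact le_rfl
    refine (sum_le_sum h3).trans ?_
    rw [sum_comm, pot, sum_mul]
    refine sum_le_sum fun e he => ?_
    rw [mem_filter] at he
    have h4 : (2 : ℝ) ≤ deg g G (g e) := by exact_mod_cast hd e he.1 he.2
    have h5 : {e' ∈ R G | g e' = g e} = {e' ∈ G | g e' = g e} := by
      ext e'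
      simp only [mem_filter]
      exact ⟨fun h => ⟨((hR G e').1 h.1).1, h.2⟩, fun h => ⟨hrem e he.1 he.2 e' h.1 h.2, h.2⟩⟩
    have h6 := card_filter_add_card_filter_not (s := R G) (fun e' => g e' = g e)
    rw [h5] at h6
    have h7 : (#{e' ∈ R G | ¬ g e' = g e} : ℝ) = #(R G) - deg g G (g e) := by
      rw [← h6]; unfold deg; push_cast; ring
    have h8 : e ∈ {e' ∈ G | g e' = g e} := mem_filter.2 ⟨he.1, rfl⟩
    rw [sum_ite, h5, sum_const, nsmul_eq_mul, h7, ← add_sum_erase _ _ h8, if_pos rfl,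
      sum_congr rfl (g := fun _ => 1 / (deg g G (g e) - 1 : ℝ)) (fun e' h => if_neg (ne_of_mem_erase h).symm),
      sum_const, card_erase_of_mem h8, nsmul_eq_mul, Nat.cast_sub (card_pos.2 ⟨e, h8⟩)]
    have h9 : (deg g G (g e) - 1 : ℝ) ≠ 0 := by linarith
    have h10 : (deg g G (g e) : ℝ) ≠ 0 := by linarith
    change 0 + ((deg g G (g e) : ℝ) - (1 : ℕ)) * _ + _ ≤ _
    apply le_of_eq
    push_cast
    field_simp
    ring

omit [Fintype V] [DecidableEq E] in
lemma pot_le (f g : E → V) (S : Finset V) (G : Finset E) (c m : ℕ) (hm : 0 < m) (h1 : #{e ∈ G | f e ∈ S} ≤ c)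
    (h2 : ∀ e ∈ G, f e ∈ S → m ≤ deg g G (g e)) : pot f g S G ≤ c / m := by
  have hm' : (0 : ℝ) < m := by exact_mod_cast hm
  refine (sum_le_card_nsmul _ _ (1 / m : ℝ) fun e he => ?_).trans ?_
  · rw [mem_filter] at he
    exact one_div_le_one_div_of_le hm' (by exact_mod_cast h2 e he.1 he.2)
  · rw [nsmul_eq_mul, mul_one_div]
    gcongr

end gen

def ini {n : ℕ} (G : Finset (Fin n × Fin n)) : ℕ := #{v : Fin n | ∀ e ∈ G, e.2 ≠ v}

def ter {n : ℕ} (G : Finset (Fin n × Fin n)) : ℕ := #{v : Fin n | ∀ e ∈ G, e.1 ≠ v}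

def rem {n : ℕ} (x y : ℕ) (G : Finset (Fin n × Fin n)) : Finset (Fin n × Fin n) :=
  {e ∈ G | ini (G.erase e) ≤ x ∧ ter (G.erase e) ≤ y}

noncomputable def pr {n : ℕ} (x y : ℕ) : ℕ → Finset (Fin n × Fin n) → ℝ
  | 0, G => if ini G = x ∧ ter G = y then 1 else 0
  | k + 1, G => if rem x y G = ∅ then (if ini G = x ∧ ter G = y then 1 else 0) else
      (∑ e ∈ rem x y G, pr x y k (G.erase e)) / #(rem x y G)

lemma ini_eq {n : ℕ} (G : Finset (Fin n × Fin n)) : ini G = cnt Prod.snd G := by
  unfold ini cnt; congr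

lemma ter_eq {n : ℕ} (G : Finset (Fin n × Fin n)) : ter G = cnt Prod.fst G := by
  unfold ter cnt; congr

lemma pr_eq {n : ℕ} (x y k : ℕ) : ∀ G : Finset (Fin n × Fin n),
    pr x y k G = val (rem x y) (fun G => if ini G = x ∧ ter G = y then 1 else 0) k G := by
  induction k with
  | zero => intro G; rfl
  | succ k ih => intro G; simp only [pr, val, ih]

lemma bound (x y n : ℕ) (hx : 1 ≤ x) (hy : 1 ≤ y) (hxn : x < n) (hyn : y < n) :
    1 - ((x * x : ℕ) / ((n - x : ℕ) : ℝ) + (y * y : ℕ) / ((n - y : ℕ) : ℝ)) ≤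
      pr x y (n ^ 2) ({e | e.1 < e.2} : Finset (Fin n × Fin n)) := by
  set K : Finset (Fin n × Fin n) := {e | e.1 < e.2} with hK
  have hmem : ∀ e, e ∈ K ↔ e.1 < e.2 := fun e => by simp [hK]
  have hc : #K ≤ n ^ 2 := (card_le_univ K).trans (by simp [sq])
  have hi : cnt Prod.snd K ≤ x := by
    refine le_trans (card_le_one.2 fun a ha b hb => ?_) hx
    simp only [mem_filter, mem_univ, true_and] at ha hb
    rcases lt_trichotomy a b with h | h | h
    · exact absurd rfl (hb (a, b) ((hmem _).2 h))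
    · exact h
    · exact absurd rfl (ha (b, a) ((hmem _).2 h))
  have ht : cnt Prod.fst K ≤ y := by
    refine le_trans (card_le_one.2 fun a ha b hb => ?_) hy
    simp only [mem_filter, mem_univ, true_and] at ha hb
    rcases lt_trichotomy a b with h | h | h
    · exact absurd rfl (ha (a, b) ((hmem _).2 h))
    · exact h
    · exact absurd rfl (hb (b, a) ((hmem _).2 h))
  let a : Fin n := ⟨x, hxn⟩
  let b : Fin n := ⟨n - y, by omega⟩
  have ha : #(Iio a) = x := by simp [a]
  have hb : #(Ici b) = y := by simp [b]; omega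
  have ha' : #(Ici a) = n - x := by simp [a]
  have hb' : #(Iio b) = n - y := by simp [b]
  have k1 := key Prod.snd Prod.fst y x (rem x y) (fun G e => by simp only [rem, mem_filter, ini_eq, ter_eq]) (Iio a) ha.ge
    (n ^ 2) K hc hi ht
  have k2 := key Prod.fst Prod.snd x y (rem x y)
    (fun G e => by simp only [rem, mem_filter, ini_eq, ter_eq]; tauto) (Ici b) hb.ge (n ^ 2) K hc ht hi
  have p1 := pot_le Prod.snd Prod.fst (Iio a) K (x * x) (n - x) (by omega) (by
    refine (card_le_card (t := Iio a ×ˢ Iio a) fun e he => ?_).trans (by rw [card_product, ha])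
    simp only [mem_filter, hmem, mem_Iio, mem_product] at he ⊢
    exact ⟨he.1.trans he.2, he.2⟩) (by
    intro e he h
    rw [← ha']
    refine card_le_card_of_injOn (fun v => (e.1, v)) (fun v hv => ?_) (fun v _ w _ h => (Prod.ext_iff.1 h).2)
    simp only [coe_filter, hmem, mem_Iio, mem_coe, mem_Ici, Set.mem_ofPred_eq, and_true] at he h hv ⊢
    exact (he.trans h).trans_le hv)
  have p2 := pot_le Prod.fst Prod.snd (Ici b) K (y * y) (n - y) (by omega) (by
    refine (card_le_card (t := Ici b ×ˢ Ici b) fun e he => ?_).trans (by rw [card_product, hb])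
    simp only [mem_filter, hmem, mem_Ici, mem_product] at he ⊢
    exact ⟨he.2, he.2.trans he.1.le⟩) (by
    intro e he h
    rw [← hb']
    refine card_le_card_of_injOn (fun v => (v, e.2)) (fun v hv => ?_) (fun v _ w _ h => (Prod.ext_iff.1 h).1)
    simp only [coe_filter, hmem, mem_Iio, mem_coe, mem_Ici, Set.mem_ofPred_eq, and_true] at he h hv ⊢
    exact (hv.trans_le h).trans he)
  have k3 := val_le (rem x y) (fun G : Finset (Fin n × Fin n) => -(if ini G = x ∧ ter G = y then 1 else 0))
    (fun G => if cnt Prod.snd G = x then 0 else 1) (fun G => if cnt Prod.fst G = y then 0 else 1) (-1) (by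
      intro G
      rw [← ini_eq, ← ter_eq]
      by_cases h1 : ini G = x <;> by_cases h2 : ter G = y <;> simp [h1, h2]) (n ^ 2) K
  rw [val_neg, ← pr_eq] at k3
  have q1 : (0 : ℝ) ≤ (x * x : ℕ) / ((n - x : ℕ) : ℝ) := by positivity
  have q2 : (0 : ℝ) ≤ (y * y : ℕ) / ((n - y : ℕ) : ℝ) := by positivity
  split_ifs at k1 k2 <;> linarith

theorem main (x y : ℕ) (hx : 1 ≤ x) (hy : 1 ≤ y) :
    Tendsto (fun n : ℕ => pr x y (n ^ 2) ({e | e.1 < e.2} : Finset (Fin n × Fin n))) atTop (𝓝 1) := by
  have h : ∀ x : ℕ, Tendsto (fun n : ℕ => ((x * x : ℕ) : ℝ) / ((n - x : ℕ) : ℝ)) atTop (𝓝 0) := fun x =>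
    (tendsto_const_div_atTop_nhds_zero_nat _).comp (tendsto_sub_atTop_nat x)
  have h2 := ((h x).add (h y)).const_sub 1
  rw [add_zero, sub_zero] at h2
  refine tendsto_of_tendsto_of_tendsto_of_le_of_le' h2 tendsto_const_nhds ?_ (Eventually.of_forall fun n => ?_)
  · filter_upwards [eventually_gt_atTop x, eventually_gt_atTop y] with n h3 h4
    exact bound x y n hx hy h3 h4
  · have := val_le (rem x y) (fun G : Finset (Fin n × Fin n) => if ini G = x ∧ ter G = y then 1 else 0)
      (fun _ => 0) (fun _ => 0) 1 (fun G => by split_ifs <;> norm_num) (n ^ 2) {e | e.1 < e.2}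
    rw [val_zero, ← pr_eq] at this
    simpa using this

end Pool.Agent.H.MP_f59edb_pr
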